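import Pool.Agent.H650R3.Cyc.Coset

set_option autoImplicit false

/-!
Polynomials vanishing on a coset of a subgroup of the torus are not shift-cyclic in `D_t(𝔻^d)` as
soon as the sum of `∏ (1 + β_j)^(-t)` over the nonnegative elements `β` of the annihilator `L` of
the subgroup converges.
-/

namespace Pool.Agent.Results.MP_4ac1fb_an.CosetZeros

open Pool.Agent.H650R3.Cyc

theorem result (d : ℕ) (t : ℝ) (P : MvPolynomial (Fin d) ℂ) (L : AddSubgroup (Fin d → ℤ))
    (ζ : Fin d → ℂ) (hζ : ∀ j, ‖ζ j‖ = 1) (h0 : ClassSumsZero P ζ L)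
    (hs : Summable (cosTerm t L)) :
    ¬ ShiftCyclic t (P : MvPowerSeries (Fin d) ℂ) :=
  coset_nec hζ h0 hs

end Pool.Agent.Results.MP_4ac1fb_an.CosetZeros
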